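import Pool.Agent.Helper79.GL4.GoalsB

/-!
# E1 (MP_27a5f8_al): comparability of invariant subspaces
-/

namespace GL4

open Module Submodule

/-- a finite invariant set all of whose orbits have size divisible by `N` -/
theorem dvd_ncard_of_orbits {A : Type} [Group A] {α : Type*} [MulAction A α] {R : Subgroup A}
    {N : ℕ} : ∀ (k : ℕ) (Y : Set α), Y.Finite → Y.ncard ≤ k →
    (∀ g ∈ R, ∀ x ∈ Y, g • x ∈ Y) → (∀ x ∈ Y, N ∣ Set.ncard {y | ∃ g ∈ R, g • x = y}) →
    N ∣ Y.ncard := by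
  intro k
  induction k with
  | zero =>
    intro Y hf hk _ _
    have : Y.ncard = 0 := by omega
    rw [this]; exact dvd_zero _
  | succ k ih =>
    intro Y hf hk hY h
    rcases Y.eq_empty_or_nonempty with rfl | ⟨x, hx⟩
    · rw [Set.ncard_empty]; exact dvd_zero _
    · have hO : {y | ∃ g ∈ R, g • x = y} ⊆ Y := by
        rintro y ⟨g, hg, rfl⟩; exact hY g hg x hx
      have hxO : x ∈ {y | ∃ g ∈ R, g • x = y} := ⟨1, R.one_mem, one_smul _ _⟩
      have h1 : (Y \ {y | ∃ g ∈ R, g • x = y}).ncard + Set.ncard {y | ∃ g ∈ R, g • x = y} = Y.ncard :=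
        Set.ncard_sdiff_add_ncard_of_subset hO hf
      have h2 : 0 < Set.ncard {y | ∃ g ∈ R, g • x = y} :=
        (Set.ncard_pos (hf.subset hO)).2 ⟨x, hxO⟩
      rw [← h1]
      apply Dvd.dvd.add
      · apply ih _ (hf.subset Set.sdiff_subset) (by omega)
        · rintro g hg y ⟨hy, hyO⟩
          refine ⟨hY g hg y hy, ?_⟩
          rintro ⟨g', hg', he⟩
          apply hyO
          refine ⟨g⁻¹ * g', R.mul_mem (R.inv_mem hg) hg', ?_⟩
          rw [mul_smul, he, inv_smul_smul]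
        · rintro y ⟨hy, -⟩
          exact h y hy
      · exact h x hx

theorem le_of_pow_dvd_mul_br {q l j k : ℕ} (hq : 2 ≤ q) (hk : 1 ≤ k)
    (h : q ^ l ∣ q ^ j * br q k) : l ≤ j := by
  by_contra hc
  push Not at hc
  obtain ⟨d, rfl⟩ := Nat.exists_eq_add_of_lt hc
  obtain ⟨i, rfl⟩ := Nat.exists_eq_add_of_le hk
  have h1 : q ^ (j + d + 1) = q ^ j * (q ^ d * q) := by rw [pow_succ, pow_add, mul_assoc]
  rw [h1] at h
  have h2 : q ^ d * q ∣ br q (1 + i) := Nat.dvd_of_mul_dvd_mul_left (by positivity) h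
  have h3 : q ∣ br q (1 + i) := (Dvd.intro_left _ rfl).trans h2
  rw [add_comm, br_succ'] at h3
  have h4 : q ∣ 1 := (Nat.dvd_add_right (Dvd.intro _ rfl)).1 h3
  have := Nat.le_of_dvd one_pos h4
  omega

section
variable {F : Type} [Field F] [Finite F] {W : Type} [AddCommGroup W] [Module F W]
  [FiniteDimensional F W]

theorem ncard_pts_le (U : Submodule F W) :
    Set.ncard {x : Submodule F W | Pt x ∧ x ≤ U} = br (Nat.card F) (finrank F U) := by
  rw [← card_pts_le, ← Nat.card_coe_set_eq]; rfl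

theorem ncard_hys_ge (U : Submodule F W) :
    Set.ncard {H : Submodule F W | Hy H ∧ U ≤ H} = br (Nat.card F) (finrank F W - finrank F U) := by
  rw [← card_hys_ge, ← Nat.card_coe_set_eq]; rfl

/-- number of points of `U` outside `T` -/
theorem ncard_pts_diff (U T : Submodule F W) :
    Set.ncard {x : Submodule F W | Pt x ∧ x ≤ U ∧ ¬ x ≤ T} =
      (Nat.card F) ^ finrank F ↥(U ⊓ T) *
        br (Nat.card F) (finrank F U - finrank F ↥(U ⊓ T)) := by
  have h1 : {x : Submodule F W | Pt x ∧ x ≤ U ∧ ¬ x ≤ T} =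
      {x : Submodule F W | Pt x ∧ x ≤ U} \ {x | Pt x ∧ x ≤ U ⊓ T} := by
    ext x
    constructor
    · rintro ⟨h1, h2, h3⟩
      exact ⟨⟨h1, h2⟩, fun h => h3 (h.2.trans inf_le_right)⟩
    · rintro ⟨⟨h1, h2⟩, h3⟩
      exact ⟨h1, h2, fun h => h3 ⟨h1, le_inf h2 h⟩⟩
  have h2 : {x : Submodule F W | Pt x ∧ x ≤ U ⊓ T} ⊆ {x : Submodule F W | Pt x ∧ x ≤ U} :=
    fun x hx => ⟨hx.1, hx.2.trans inf_le_left⟩
  have h3 := Set.ncard_sdiff_add_ncard_of_subset h2 (Set.toFinite _)
  rw [← h1, ncard_pts_le, ncard_pts_le] at h3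
  have h4 : finrank F ↥(U ⊓ T) ≤ finrank F U := Submodule.finrank_mono inf_le_left
  have h5 : br (Nat.card F) (finrank F U) = br (Nat.card F) (finrank F ↥(U ⊓ T)) +
      (Nat.card F) ^ finrank F ↥(U ⊓ T) *
        br (Nat.card F) (finrank F U - finrank F ↥(U ⊓ T)) := by
    rw [← br_add, Nat.add_sub_cancel' h4]
  omega

/-- number of hyperplanes containing `U` but not `T` -/
theorem ncard_hys_diff (U T : Submodule F W) :
    Set.ncard {H : Submodule F W | Hy H ∧ U ≤ H ∧ ¬ T ≤ H} =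
      (Nat.card F) ^ (finrank F W - finrank F ↥(U ⊔ T)) *
        br (Nat.card F) (finrank F ↥(U ⊔ T) - finrank F U) := by
  have h1 : {H : Submodule F W | Hy H ∧ U ≤ H ∧ ¬ T ≤ H} =
      {H : Submodule F W | Hy H ∧ U ≤ H} \ {H | Hy H ∧ U ⊔ T ≤ H} := by
    ext x
    constructor
    · rintro ⟨h1, h2, h3⟩
      exact ⟨⟨h1, h2⟩, fun h => h3 (le_sup_right.trans h.2)⟩
    · rintro ⟨⟨h1, h2⟩, h3⟩
      exact ⟨h1, h2, fun h => h3 ⟨h1, sup_le h2 h⟩⟩
  have h2 : {H : Submodule F W | Hy H ∧ U ⊔ T ≤ H} ⊆ {H : Submodule F W | Hy H ∧ U ≤ H} :=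
    fun x hx => ⟨hx.1, le_sup_left.trans hx.2⟩
  have h3 := Set.ncard_sdiff_add_ncard_of_subset h2 (Set.toFinite _)
  rw [← h1, ncard_hys_ge, ncard_hys_ge] at h3
  have h4 : finrank F U ≤ finrank F ↥(U ⊔ T) := Submodule.finrank_mono le_sup_left
  have h6 : finrank F ↥(U ⊔ T) ≤ finrank F W := Submodule.finrank_le _
  have h5 : br (Nat.card F) (finrank F W - finrank F U) =
      br (Nat.card F) (finrank F W - finrank F ↥(U ⊔ T)) +
      (Nat.card F) ^ (finrank F W - finrank F ↥(U ⊔ T)) *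
        br (Nat.card F) (finrank F ↥(U ⊔ T) - finrank F U) := by
    rw [← br_add]
    congr 1
    omega
  omega

end

attribute [local instance] subAct

theorem e1 : E1 := by
  intro F _ _ W _ _ _ G c n B C N L hW hcn hcm
  obtain ⟨bc, nn, dimL, adjN, trL⟩ := hW
  have partA : ∀ x, Pt x → N x ≤ B x := by
    intro x hx
    by_contra hc
    obtain ⟨y, hy, hyN, hyB⟩ := exists_pt_not_le hc
    have hN : ¬ (⊤ : Submodule F W) ≤ N x := by
      intro h
      have h1 := nn.dimN x hx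
      rw [top_le_iff.1 h, finrank_top] at h1
      have := bc.c1
      omega
    have hB : ¬ (⊤ : Submodule F W) ≤ B x := by
      intro h
      have h1 := bc.dimB x hx
      rw [top_le_iff.1 h, finrank_top] at h1
      have := bc.c1
      omega
    obtain ⟨z, hz, -, hzN, hzB⟩ := exists_pt_not_le₂ hN hB
    obtain ⟨g, hg, hgx, hgy⟩ := bc.trB x y z hx hy hz hyB hzB
    apply hzN
    rw [← hgy, ← hgx, nn.eqN g hg x hx]
    exact im_mono g hyN
  refine ⟨partA, fun x H hx hH hxC => ?_⟩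
  have hBH : B x ≤ H := (bc.adj x H hx hH).1 hxC
  -- arithmetic of the field
  obtain ⟨p, hchar⟩ := CharP.exists F
  have hp : p.Prime := (CharP.char_is_prime_or_zero F p).resolve_right
    (CharP.char_ne_zero_of_finite F p)
  have : Fact p.Prime := ⟨hp⟩
  have : Fintype F := Fintype.ofFinite F
  obtain ⟨e, -, hq⟩ := FiniteField.card F p
  rw [← Nat.card_eq_fintype_card] at hq
  have hq2 : 2 ≤ Nat.card F := Finite.one_lt_card
  have hpq : p ∣ Nat.card F := by
    rw [hq]; exact dvd_pow_self p e.2.ne'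
  have hpc : ¬ p ∣ br (Nat.card F) c := by
    obtain ⟨i, rfl⟩ := Nat.exists_eq_add_of_le bc.c1
    rw [add_comm, br_succ']
    intro h
    have h1 : p ∣ 1 := (Nat.dvd_add_right (Dvd.dvd.mul_right hpq _)).1 h
    exact hp.one_lt.ne' (Nat.dvd_one.1 h1)
  -- the stabilisers
  set Gx : Subgroup (W ≃ₗ[F] W) := G ⊓ MulAction.stabilizer (W ≃ₗ[F] W) x with hGx
  set GH : Subgroup (W ≃ₗ[F] W) := G ⊓ MulAction.stabilizer (W ≃ₗ[F] W) H with hGH
  set R : Subgroup (W ≃ₗ[F] W) := Gx ⊓ MulAction.stabilizer (W ≃ₗ[F] W) H with hR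
  have memGx : ∀ g, g ∈ Gx ↔ g ∈ G ∧ im g x = x := fun g => Iff.rfl
  have memGH : ∀ g, g ∈ GH ↔ g ∈ G ∧ im g H = H := fun g => Iff.rfl
  have memR : ∀ g, g ∈ R ↔ (g ∈ G ∧ im g x = x) ∧ im g H = H := fun g => Iff.rfl
  have hRx : R ≤ Gx := inf_le_left
  have hRH : R ≤ GH := fun g hg => ⟨((memR g).1 hg).1.1, ((memR g).1 hg).2⟩
  have hR2 : R = GH ⊓ MulAction.stabilizer (W ≃ₗ[F] W) x := by
    ext g
    constructor
    · intro h; exact ⟨hRH h, ((memR g).1 h).1.2⟩
    · rintro ⟨h1, h2⟩; exact ⟨⟨h1.1, h2⟩, h1.2⟩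
  have dimBx := bc.dimB x hx
  have dimCH := bc.dimC H hH
  have dimNx := nn.dimN x hx
  have dimLH := dimL H hH
  have c1 := bc.c1
  have idx1 : ¬ p ∣ R.relIndex Gx := by
    rw [hR, ← ncard_orbit Gx H]
    have : {y | ∃ g ∈ Gx, g • H = y} = {H' | Hy H' ∧ B x ≤ H'} := by
      ext H'
      constructor
      · rintro ⟨g, hg, rfl⟩
        have hg' := (memGx g).1 hg
        refine ⟨hH.im, ?_⟩
        have h1 := bc.eqB g hg'.1 x hx
        rw [hg'.2] at h1
        rw [h1]
        exact im_mono g hBH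
      · rintro ⟨h1, h2⟩
        obtain ⟨g, hg, h3, h4⟩ := bc.trBH x H H' hx hH h1 hBH h2
        exact ⟨g, (memGx g).2 ⟨hg, h3⟩, h4⟩
    rw [this, ncard_hys_ge, show finrank F W - finrank F (B x) = c by omega]
    exact hpc
  have idx2 : ¬ p ∣ R.relIndex GH := by
    rw [hR2, ← ncard_orbit GH x]
    have : {y | ∃ g ∈ GH, g • x = y} = {y | Pt y ∧ y ≤ C H} := by
      ext y
      constructor
      · rintro ⟨g, hg, rfl⟩
        have hg' := (memGH g).1 hg
        refine ⟨hx.im, ?_⟩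
        have h1 := bc.eqC g hg'.1 H hH
        rw [hg'.2] at h1
        rw [h1]
        exact im_mono g hxC
      · rintro ⟨h1, h2⟩
        obtain ⟨g, hg, h3, h4⟩ := bc.trCx H x y hH hx h1 hxC h2
        exact ⟨g, (memGH g).2 ⟨hg, h3⟩, h4⟩
    rw [this, ncard_pts_le, dimCH]
    exact hpc
  have hNH : N x ≤ H := (partA x hx).trans hBH
  have hLH : L H ≤ H := by
    apply le_of_pts
    intro y hy hyL
    exact (nn.selfN y hy).trans ((adjN y H hy hH).1 hyL)
  have dimH : finrank F H + 1 = finrank F W := hH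
  have invL : ∀ g ∈ GH, ∀ y, Pt y → (im g y ≤ L H ↔ y ≤ L H) := by
    intro g hg y hy
    have hg' := (memGH g).1 hg
    rw [adjN y H hy hH, adjN (im g y) H hy.im hH, nn.eqN g hg'.1 y hy]
    conv_lhs => rw [← hg'.2]
    exact im_le_im_iff g
  have invB : ∀ g ∈ R, im g (B x) = B x := by
    intro g hg
    have hg' := (memR g).1 hg
    rw [← bc.eqB g hg'.1.1 x hx, hg'.1.2]
  have invN : ∀ g ∈ Gx, im g (N x) = N x := by
    intro g hg
    have hg' := (memGx g).1 hg
    rw [← nn.eqN g hg'.1 x hx, hg'.2]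
  have invC : ∀ g ∈ R, im g (C H) = C H := by
    intro g hg
    have hg' := (memR g).1 hg
    rw [← bc.eqC g hg'.1.1 H hH, hg'.2]
  have hpow : ∀ l : ℕ, (Nat.card F) ^ l = p ^ ((e : ℕ) * l) := by
    intro l; rw [pow_mul, ← hq]
  constructor
  · -- L H ≤ B x
    have h1 : (Nat.card F) ^ finrank F (L H) ∣
        Set.ncard {y : Submodule F W | Pt y ∧ y ≤ B x ∧ ¬ y ≤ L H} := by
      rw [hpow]
      apply dvd_ncard_of_orbits (R := R) _ _ (Set.toFinite _) le_rfl
      · rintro g hg y ⟨hy, hyB, hyL⟩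
        refine ⟨hy.im, ?_, ?_⟩
        · change im g y ≤ B x
          rw [← invB g hg]; exact im_mono g hyB
        · change ¬ im g y ≤ L H
          rw [invL g (hRH hg) y hy]; exact hyL
      · rintro y ⟨hy, hyB, hyL⟩
        apply pow_dvd_orbit hRH idx2 y
        have : {z | ∃ g ∈ GH, g • y = z} = {z | Pt z ∧ z ≤ H ∧ ¬ z ≤ L H} := by
          ext z
          constructor
          · rintro ⟨g, hg, rfl⟩
            refine ⟨hy.im, ?_, ?_⟩
            · change im g y ≤ H
              rw [← ((memGH g).1 hg).2]; exact im_mono g (hyB.trans hBH)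
            · change ¬ im g y ≤ L H
              rw [invL g hg y hy]; exact hyL
          · rintro ⟨h1, h2, h3⟩
            obtain ⟨g, hg, h4, h5⟩ := trL H y z hH hy h1 (hyB.trans hBH) h2 hyL h3
            exact ⟨g, (memGH g).2 ⟨hg, h4⟩, h5⟩
        rw [this, ncard_pts_diff, inf_eq_right.2 hLH, ← hpow]
        exact Dvd.intro _ rfl
    rw [ncard_pts_diff] at h1
    have hj : finrank F ↥(B x ⊓ L H) < finrank F (B x) := by
      apply Submodule.finrank_lt_finrank_of_lt
      refine lt_of_le_of_ne inf_le_left fun he => ?_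
      have h2 : B x ≤ L H := inf_eq_left.1 he
      have h3 := Submodule.finrank_mono h2
      omega
    have h2 : finrank F (L H) ≤ finrank F ↥(B x ⊓ L H) :=
      le_of_pow_dvd_mul_br hq2 (by omega) h1
    have h3 : B x ⊓ L H = L H := Submodule.eq_of_le_of_finrank_le inf_le_right h2
    exact inf_eq_right.1 h3
  · -- C H ≤ N x
    have h1 : (Nat.card F) ^ (finrank F W - (n + 1)) ∣
        Set.ncard {H' : Submodule F W | Hy H' ∧ C H ≤ H' ∧ ¬ N x ≤ H'} := by
      rw [hpow]
      apply dvd_ncard_of_orbits (R := R) _ _ (Set.toFinite _) le_rfl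
      · rintro g hg H' ⟨hH', hC', hN'⟩
        refine ⟨hH'.im, ?_, ?_⟩
        · change C H ≤ im g H'
          rw [← invC g hg]; exact im_mono g hC'
        · change ¬ N x ≤ im g H'
          rw [← invN g (hRx hg), im_le_im_iff]; exact hN'
      · rintro H' ⟨hH', hC', hN'⟩
        apply pow_dvd_orbit hRx idx1 H'
        have : {z | ∃ g ∈ Gx, g • H' = z} = {z | Hy z ∧ x ≤ z ∧ ¬ N x ≤ z} := by
          ext z
          constructor
          · rintro ⟨g, hg, rfl⟩
            refine ⟨hH'.im, ?_, ?_⟩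
            · change x ≤ im g H'
              rw [← ((memGx g).1 hg).2]; exact im_mono g (hxC.trans hC')
            · change ¬ N x ≤ im g H'
              rw [← invN g hg, im_le_im_iff]; exact hN'
          · rintro ⟨h1, h2, h3⟩
            obtain ⟨g, hg, h4, h5⟩ := nn.trNH x H' z hx hH' h1 (hxC.trans hC') h2 hN' h3
            exact ⟨g, (memGx g).2 ⟨hg, h4⟩, h5⟩
        rw [this, ncard_hys_diff, sup_eq_right.2 (nn.selfN x hx), dimNx, ← hpow]
        exact Dvd.intro _ rfl
    rw [ncard_hys_diff] at h1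
    have hs : finrank F (C H) < finrank F ↥(C H ⊔ N x) := by
      apply Submodule.finrank_lt_finrank_of_lt
      refine lt_of_le_of_ne le_sup_left fun he => ?_
      have h2 : N x ≤ C H := by rw [he]; exact le_sup_right
      have h3 := Submodule.finrank_mono h2
      omega
    have h2 : finrank F W - (n + 1) ≤ finrank F W - finrank F ↥(C H ⊔ N x) :=
      le_of_pow_dvd_mul_br hq2 (by omega) h1
    have h3 : finrank F ↥(C H ⊔ N x) ≤ finrank F W := Submodule.finrank_le _
    have h4 : finrank F ↥(C H ⊔ N x) ≤ finrank F (N x) := by omega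
    have h5 : N x = C H ⊔ N x := Submodule.eq_of_le_of_finrank_le le_sup_right h4
    rw [h5]; exact le_sup_left

end GL4
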