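import Pool.Agent.Helper79.GL4.GoalsA

/-!
# S5B1 (MP_27a5f8_al): lifts of transvections of `V/P`
-/

namespace GL4

open Module Submodule

theorem s5b1 : S5B1 := by
  intro F _ _ V _ _ _ K p hp hSL hF f u hfu
  obtain ⟨t, ht, htP, hq⟩ := hSL (LinearEquiv.transvection hfu)
    (by rw [← LinearEquiv.coe_det, LinearEquiv.transvection.det_eq_one]; rfl)
  have hq' : ∀ v, (F ∙ p).mkQ (t v) = (F ∙ p).mkQ v + f ((F ∙ p).mkQ v) • u := by
    intro v
    rw [← hq v, LinearEquiv.transvection.apply]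
  have hstep : ∀ (n : ℕ) (v : V),
      (F ∙ p).mkQ ((t ^ n) v) = (F ∙ p).mkQ v + (n : F) • (f ((F ∙ p).mkQ v) • u) := by
    intro n
    induction n with
    | zero => intro v; simp
    | succ n ih =>
      intro v
      have e : (t ^ (n + 1)) v = (t ^ n) (t v) := by rw [pow_succ]; rfl
      rw [e, ih (t v), hq' v, map_add, map_smul, hfu, smul_zero, add_zero, Nat.cast_succ,
        add_smul, one_smul]
      abel
  have him : ∀ n : ℕ, im (t ^ n) (F ∙ p) = F ∙ p := by
    intro n
    induction n with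
    | zero => rw [pow_zero, im_one]
    | succ n ih => rw [pow_succ, im_mul, htP, ih]
  obtain ⟨ℓ, hchar⟩ := CharP.exists F
  have hℓ : ℓ.Prime := (CharP.char_is_prime_or_zero F ℓ).resolve_right
    (CharP.char_ne_zero_of_finite F ℓ)
  have : Fact ℓ.Prime := ⟨hℓ⟩
  have h1 : t ^ ℓ = 1 := by
    apply hF _ (K.pow_mem ht _) (him ℓ)
    intro v
    rw [hstep, CharP.cast_eq_zero, zero_smul, add_zero]
  obtain ⟨c, hc⟩ : ∃ c : F, c • p = t p := by
    have : t p ∈ im t (F ∙ p) := apply_mem_im (mem_span_singleton_self p)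
    rw [htP] at this
    exact mem_span_singleton.1 this
  have hcn : ∀ n : ℕ, (t ^ n) p = c ^ n • p := by
    intro n
    induction n with
    | zero => simp
    | succ n ih =>
      have e : (t ^ (n + 1)) p = (t ^ n) (t p) := by rw [pow_succ]; rfl
      rw [e, ← hc, map_smul, ih, smul_smul, pow_succ, mul_comm]
  have hc1 : c = 1 := by
    have h2 := hcn ℓ
    rw [h1] at h2
    have h3 : (1 : F) • p = c ^ ℓ • p := by rw [one_smul]; exact h2
    have h4 : (1 : F) = c ^ ℓ := smul_left_injective F hp h3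
    apply frobenius_inj F ℓ
    rw [frobenius_def, frobenius_def, one_pow, ← h4]
  rw [hc1, one_smul] at hc
  obtain ⟨u', hu'⟩ := (F ∙ p).mkQ_surjective u
  let D : V →ₗ[F] V := (t : V →ₗ[F] V) - LinearMap.id - (f.comp (F ∙ p).mkQ).smulRight u'
  have hD : ∀ v, D v = t v - v - f ((F ∙ p).mkQ v) • u' := fun v => rfl
  have hDP : ∀ v, D v ∈ (F ∙ p) := by
    intro v
    have : (F ∙ p).mkQ (D v) = 0 := by
      rw [hD, map_sub, map_sub, map_smul, hq', hu']
      abel
    rwa [mkQ_apply, Quotient.mk_eq_zero] at this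
  have hDp : D p = 0 := by
    have h0 : (F ∙ p).mkQ p = 0 := by
      rw [mkQ_apply, Quotient.mk_eq_zero]; exact mem_span_singleton_self p
    rw [hD, ← hc, h0, map_zero, zero_smul, sub_self, sub_zero]
  let E : V →ₗ[F] F := (LinearEquiv.coord F V p hp : (F ∙ p) →ₗ[F] F).comp
    (D.codRestrict (F ∙ p) hDP)
  have hE : ∀ v, E v • p = D v := fun v => LinearEquiv.coord_apply_smul F V p hp ⟨D v, hDP v⟩
  have hEk : (F ∙ p) ≤ LinearMap.ker E := by
    rw [span_singleton_le_iff_mem, LinearMap.mem_ker]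
    have := hE p
    rw [hDp] at this
    exact (smul_eq_zero.1 this).resolve_right hp
  refine ⟨t, ht, u', (F ∙ p).liftQ E hEk, hu', fun v => ?_⟩
  rw [mkQ_apply, liftQ_apply, hE, hD, mkQ_apply]
  abel

end GL4
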